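import Pool.Agent.T2h12.OM.AD

/-!
Nef divisors `L`, a multiple of which is `a K_X + b M`, on varieties with self-correspondences which
are étale in codimension one and preserve the class of `M`.
-/

set_option autoImplicit false

open FF Pool.Agent.W602.GT Pool.Agent.Y172 Pool.Agent.R887 Pool.Agent.N110 Pool.Agent.T2h12
open Pool.Agent.T2H06.DYL
open Pool.Agent.T2H06.ASM (divisor_of_mul)
open Pool.Agent.T2H08.CM (IsCanonicalDivisor can_divisor add_divisor)

namespace Pool.Agent.Results.MP_1149f4_ag.AdjointCorrespondences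

/-- Let `X` be a normal projective variety of dimension `n > 0` with canonical singularities, for
instance a projective manifold, with function field `K`, `C` a canonical divisor, `M` and `L` Cartier
divisors such that `l L = a C + b M`, where `l ≥ 1` and `a, b ≥ 0` (in the generalised abundance
conjecture `L` and `M = l L - K_X` are nef, `a = b = 1`), and `Ω` an algebraic extension of `K`. Let
`g_1, ..., g_d` be automorphisms of `Ω` over `ℂ`, which need not preserve `K`. Every `g_i` is a branch
of an algebraic, multi-valued self-map of `X`: of the irreducible correspondence `Γ_i` with the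
function field `K ⊔ g_i K`, with the projections `p_i`, `q_i` to `X` given by the inclusion of `K` and
by `g_i` (`OM.pr₁`, `OM.pr₂`); if `Ω` is algebraically closed then all the irreducible
correspondences which are generically finite over both factors occur. Suppose that both projections
of every `Γ_i` are unramified over the prime divisors of `X` (`OM.Unram`), and that
`q_i^* M ≡ p_i^* M`: the class of `p_i^* M - q_i^* M` is pseudo-effective along the divisors which are
mapped onto prime divisors of `X` by `p_i`, and its negative along the divisors which are mapped onto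
prime divisors of `X` by `q_i` (`OM.CorrPullLe`). Nothing is assumed about the pull backs of `L`.

Let `w i ≥ 0` be probabilities with sum `1`, and `s ≥ 0` real. The dynamical degrees
`λ 0, ..., λ n` of exponent `s` of the random products of the branches (`OM.corrRandom`) are the
growth rates of the means of exponent `s` (for `s = 0`: the geometric means) of the normalised degrees
`(q^* H) ^ p · (p^* H) ^ (n - p) / deg p` of the composition of `l` independent random branches. If
the `g_i` are the `d` branches of one correspondence, `s = 1` and `w i = 1 / d`, then they are its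
dynamical degrees divided by `d`. Suppose that the greatest of the numbers `λ 0, ..., λ n` is not
attained at `ν + 1` consecutive indices, `1 ≤ ν ≤ n`.

Then `ν (L) < ν`, and so `κ (L) < ν`. If `κ (L) ≥ ν - 1` then `κ (L) = ν (L) = ν - 1`. If `ν = 1`, `L`
is pseudo-effective and `X` has irregularity zero then `κ (L) = ν (L) = 0`; if `ν = 1`, `L` is nef,
and `κ (L) ≥ 0` or `X` has irregularity zero, then `L` is `ℚ`-linearly trivial, in particular
semiample.

If `κ (L) = ν (L)`, and `L` and `l L - K_X` are nef, then `L` is semiample, by the theorem of Kawamata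
(1985), which is not formalised here. -/
theorem result {K Ω : Type} [Field K] [Algebra ℂ K] [Field Ω] [Algebra ℂ Ω]
    [Algebra K Ω] [IsScalarTower ℂ K Ω] [Algebra.IsAlgebraic K Ω] {N n : ℕ}
    {y : Fin (N + 1) → K} (hy : NormalModel y) (hn : Algebra.trdeg ℂ K = n) (hn0 : 0 < n)
    (hcan : Canonical y n) {C M L : Place ℂ K → ℚ} (hC : IsCanonicalDivisor y n C)
    (hM : IsDivisor y M) (hMcar : Cartier y n M) (hcar : Cartier y n L) {l a b : ℕ} (hl : 1 ≤ l)
    (hL : l • L = a • C + b • M) {d : ℕ} {g : Fin d → (Ω ≃ₐ[ℂ] Ω)}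
    (hu : ∀ i, OM.Unram y (OM.pr₁ K (g i)) ∧ OM.Unram y (OM.pr₂ K (g i)))
    (hp : ∀ i, OM.CorrPullLe y M (OM.pr₁ K (g i)) (OM.pr₂ K (g i)) 1 ∧
      OM.CorrPullLe y M (OM.pr₂ K (g i)) (OM.pr₁ K (g i)) 1)
    {w : Fin d → ℝ} (hw : ∀ i, 0 ≤ w i) (hw1 : ∑ i, w i = 1) {s : ℝ} (hs : 0 ≤ s)
    {ν : ℕ} (hν1 : 1 ≤ ν) (hν : ν ≤ n)
    (hdeg : ∀ j, j + ν ≤ n → ∃ a ≤ ν, ∃ p ≤ n,
      OM.corrRandom g w y n s (j + a) < OM.corrRandom g w y n s p) :
    NumLt y n L ν ∧ ¬ IitakaGe y L ν ∧
      (∀ k, k + 1 = ν → IitakaGe y L k → IitakaEq y L k ∧ NumEq y n L k) ∧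
      (ν = 1 → OM.DivPsef y L → IrregularityZero y → IitakaEq y L 0 ∧ NumEq y n L 0) ∧
      (ν = 1 → Nef y n L → IitakaGe y L 0 ∨ IrregularityZero y →
        ∃ m : ℕ, 1 ≤ m ∧ ∃ h : K, h ≠ 0 ∧
          ∀ P, IsPrimeDivisor y P → (P.ord h : ℚ) = -(m * L P)) := by
  classical
  have hess := hy.ess
  have hD : IsDivisor y L := divisor_of_mul hl (by
    rw [hL]
    exact add_divisor (can_divisor hy hn hC) hM a b)
  have h1 : NumLt y n L ν := by
    by_contra hnum
    obtain ⟨j, hj, h⟩ := OM.corr_plateau (Ω := Ω) hy hn hn0 hD (g := g) (fun i => by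
      have hadm := OM.corrField_adm (K := K) (g i)
      refine OM.opull_auto hy hn hD (g i) ?_ ?_
      · exact OM.cpull_eigen hy (OM.ess_M hadm) hn (OM.trdeg_M hn hadm) hcar (lam := 1)
          (OM.corr_of_mul hl (by
            rw [hL]
            exact OM.corr_adj hy (OM.ess_M hadm) hn (OM.trdeg_M hn hadm) hcan hC hMcar a b
              (hu i).1 (hp i).1))
      · exact OM.cpull_eigen hy (OM.ess_M hadm) hn (OM.trdeg_M hn hadm) hcar (lam := 1)
          (OM.corr_of_mul hl (by
            rw [hL]
            exact OM.corr_adj hy (OM.ess_M hadm) hn (OM.trdeg_M hn hadm) hcan hC hMcar a b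
              (hu i).2 (hp i).2))) hw hw1 hs hν hnum
    obtain ⟨a, ha, p, hp, hlt⟩ := hdeg j hj
    exact absurd hlt (not_lt.2 (h a ha p hp))
  have hkap : ∀ k < n, IitakaGe y L k → NumLt y n L (k + 1) → IitakaEq y L k ∧ NumEq y n L k :=
    fun k hk hkod h5 =>
      ⟨⟨hkod, iitaka_lt hy hn hk h5⟩, h5, fun h6 => iitaka_lt hy hn hk.le h6 hkod⟩
  have hge : ∀ {m : ℕ}, 1 ≤ m → ∀ {h : K}, h ≠ 0 → IsSec y (m • L) h → IitakaGe y L 0 := by
    intro m hm h hh hsec
    refine ⟨m, hm, fun _ => h, fun _ => hsec, hh, ?_⟩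
    rw [algebraicIndependent_empty_type_iff]
    exact (algebraMap ℂ K).injective
  refine ⟨h1, iitaka_lt hy hn hν h1, ?_, ?_, ?_⟩
  · rintro k rfl hkod
    exact hkap k (by omega) hkod h1
  · rintro rfl hpsef hirr
    obtain ⟨m, hm, h, hh, hsec⟩ := OM.nv_div hy hn hn0 hD hpsef h1 hirr
    exact hkap 0 hn0 (hge hm hh hsec) h1
  · rintro rfl hnef hκ
    have h6 : ∃ m : ℕ, 1 ≤ m ∧ ∃ h : K, h ≠ 0 ∧ IsSec y (m • L) h := by
      rcases hκ with ⟨m, hm, σ, hσ, h0, -⟩ | hirr
      · exact ⟨m, hm, σ 0, h0, hσ 0⟩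
      · exact OM.nv_div hy hn hn0 hD (OM.psef_of_nefD hy hn hn0 hnef) h1 hirr
    obtain ⟨m, hm, h, hh, hsec⟩ := h6
    exact ⟨m, hm, h, hh, nef_trivial hy hn hn0 h1 hnef hm hsec hh⟩

end Pool.Agent.Results.MP_1149f4_ag.AdjointCorrespondences
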