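import Pool.Agent.T2h12.NefN
import Pool.Agent.T2H06.ASM.Adj

/-!
Adjoint divisors and commuting dominant rational self-maps, not necessarily invertible: the numerical
dimension is at most the dimension of `X` minus the growth rank of the maps.
-/

set_option autoImplicit false

open FF Pool.Agent.W602.GT Pool.Agent.Y172 Pool.Agent.R887 Pool.Agent.N110 Pool.Agent.T2h12
open Pool.Agent.T2H06.DYL (IsDivisor IsSec Cartier Nef IitakaGe IitakaEq NumLt NumEq PullLe
  iitaka_lt nef_trivial)
open Pool.Agent.T2H06.ASM (adj_pullR pull_of_mul divisor_of_mul)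
open Pool.Agent.T2H08.CM (IsCanonicalDivisor can_divisor add_divisor)

/-- Let `X` be a normal projective variety of dimension `n > 0` with canonical singularities, for
instance a projective manifold, `C` a canonical divisor, `M` and `L` Cartier divisors, `L` nef, such
that `l L = a C + b M`, where `l ≥ 1` and `a, b ≥ 0` (in the generalised abundance conjecture
`a = b = 1` and `M = l L - K_X` is nef). Let `ℕ ^ r` act on `X` by dominant rational self-maps `f_v`
(commuting dominant rational self-maps `f_1, ..., f_r`, invertible or not), given by the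
endomorphisms `φ v = f_v^*` of the function field, such that the class of `M - f_v^* M` on `X` is
pseudo-effective (for instance `f_v^* M ≡ M`); nothing is assumed about the pull back of `L`. Let `s`
be at most the growth rank: for `u` in `ℤ ^ r` with positive part `v` and negative part `w` the degree
`D(u)` of the correspondence `f_v ∘ f_w⁻¹` is `f_v^* H · (f_w^* H) ^ (n - 1) / deg f_w`, and `D` grows
subexponentially only along linear subspaces of `ℝ ^ r` of codimension at least `s`. For instance
`s = r` if `max (D(u), D(-u)) ≥ c exp (δ |u|)` for some `c, δ > 0`.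

(1) Then `ν (L) ≤ n - s`.

(2) Suppose that `L` is effective, up to `ℚ`-linear equivalence: `κ (L) ≥ 0`. Then `s ≤ n` and
`κ (L) ≤ n - s`, and if `s ≥ 1` and `κ (L) ≥ n - s` then `κ (L) = ν (L) = n - s`.

(3) If `s = n`, then `L` is numerically trivial, and the sections `g ≠ 0` of `m L`, `m ≥ 1`, have no
zeros: `div g + m L = 0`.

If `κ (L) = ν (L)` and `l L - K_X` is nef, then `L` is semiample, by the theorem of Kawamata (1985),
which is not formalised here. -/
theorem Pool.Agent.Results.MP_1149f4_ag.CommutingAdjoint.result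
    {K : Type} [Field K] [Algebra ℂ K] {N n : ℕ} {y : Fin (N + 1) → K}
    (hy : NormalModel y) (hn : Algebra.trdeg ℂ K = n) (hn0 : 0 < n) (hcan : Canonical y n)
    {C M L : Place ℂ K → ℚ} (hC : IsCanonicalDivisor y n C) (hM : IsDivisor y M)
    (hMcar : Cartier y n M) (hcar : Cartier y n L) (hnef : Nef y n L) {l a b : ℕ} (hl : 1 ≤ l)
    (hL : l • L = a • C + b • M) {r s : ℕ} {φ : (Fin r → ℕ) → (K →ₐ[ℂ] K)}
    (hφ : ∀ u v, φ (u + v) = φ u * φ v) (hle : ∀ v, PullLe y M (φ v) 1)
    (hrank : SE.CorrRankGe φ y n s ∨ (s = r ∧ SE.CorrExpGrowth φ y n)) :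
    (∀ ν ≤ n, n < s + ν → NumLt y n L ν) ∧
      (IitakaGe y L 0 → s ≤ n ∧ (∀ k ≤ n, n < s + k → ¬ IitakaGe y L k) ∧
        (1 ≤ s → ∀ k, s + k = n → IitakaGe y L k → IitakaEq y L k ∧ NumEq y n L k)) ∧
      (s = n → NumLt y n L 1 ∧ ∀ m : ℕ, 1 ≤ m → ∀ g : K, IsSec y (m • L) g → g ≠ 0 →
          ∀ P, IsPrimeDivisor y P → (P.ord g : ℚ) = -(m * L P)) := by
  have hD : IsDivisor y L := divisor_of_mul hl (by
    rw [hL]
    exact add_divisor (can_divisor hy hn hC) hM a b)
  have hpull : ∀ v, PullLe y L (φ v) 1 := fun v => pull_of_mul hl (by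
    rw [hL]
    exact adj_pullR hy hn hcan hC hMcar a b (φ v) (hle v))
  have hrank' : SE.CorrRankGe φ y n s := by
    rcases hrank with h | ⟨rfl, h⟩
    · exact h
    · exact SE.corrRank_of_exp h
  have h1 : ∀ ν ≤ n, n < s + ν → NumLt y n L ν := fun ν hν hνs =>
    rank_nefL hy hn hn0 hD hcar hnef hφ hpull hrank' hν hνs
  refine ⟨h1, fun h0 => ?_, fun hs => ?_⟩
  · have hsn : s ≤ n := by
      by_contra h
      exact iitaka_lt hy hn (Nat.zero_le n) (h1 0 (Nat.zero_le n) (by omega)) h0
    refine ⟨hsn, fun k hk hk' => iitaka_lt hy hn hk (h1 k hk hk'), fun hs k hk hkod => ?_⟩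
    have h2 := h1 (k + 1) (by omega) (by omega)
    exact ⟨⟨hkod, iitaka_lt hy hn (by omega) h2⟩, h2, fun h3 => iitaka_lt hy hn (by omega) h3 hkod⟩
  · have h5 := h1 1 (by omega) (by omega)
    exact ⟨h5, fun m hm g hg hg0 => nef_trivial hy hn hn0 h5 hnef hm hg hg0⟩
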