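import Pool.Agent.T2h13.GA.Fin

/-!
# Generalised abundance for the varieties dominated by fibrations with few forms

Let `V` be a variety of dimension `n` whose canonical forms separate less than `g` generic points, for
instance a smooth complete intersection of dimension `n` of hypersurfaces of large degrees (see
`MP_e23cd6_ag.FibrationsFewForms`, part 1). Let `W ⇢ V` be a dominant rational map with connected
fibres of any dimension `r ≥ 1` whose generic fibre `F` has few forms, with the bound `h ≥ 1`: for
instance `h^(q,0) ≤ h` for all `q ≥ 1`, so `h = 1` if `F` is a Calabi-Yau or irreducible holomorphic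
symplectic variety; or, with `h = 1`, `F` is a torsor under an abelian variety (parts 3 and 4 there).
Let `W ⇢ X` be a dominant rational map of finite degree, and `(h + 1) d < g`, where `d` is the degree
over `X` of the image of `W` in `X × V`; the degree of `W ⇢ X` may be arbitrarily large, and the map
need not be related to the fibration. The variety `X` is any normal projective variety with the
given function field, for instance a projective manifold. By the structure theorem (loc. cit.) there
is a rational map `X ⇢ Z` with connected fibres of dimension `r` onto a variety `Z` of general type of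
dimension `n`; the function field of `Z` is the intersection of those of `X` and `V`. Let `G` be the
generic fibre of `X ⇢ Z`.

Let `Δ` be an effective `ℚ`-divisor, for instance zero, and let `φ` be a section of `N K_F`, `N ≥ 1`,
without poles on `W` along the fibres of `W ⇢ V` (a section of `N` times the canonical divisor of the
foliation by these fibres; if `W = V × F` this is any `φ ≠ 0` in `H⁰(F, N K_F)`), which is a section of
the pull back of `N (K_X + Δ)` on `F`.

**Theorem (1).** Let `D` be a `ℚ`-divisor on `X` such that `q D = a (K_X + Δ) + M` for some `q, a ≥ 1` and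
some pseudo-effective `ℚ`-divisor `M`; for instance let `L = D` be a nef line bundle such that
`m L - K_X` is nef for some `m ≥ 1`. If the Iitaka dimension of the restriction of `D` to `G` is at
least `k` and its numerical dimension is at most `k` (or if `k = r`), then
`κ(D) = ν(D) = n + k`.

So, for all `X` as above and all `D` as above, `κ(D) = ν(D)` if this is true for the restriction of `D`
to the generic fibre `G`: generalised abundance for `X`, of any dimension, is reduced to the
dimension `r` of the fibres. There is no condition on the positivity of `D` and `M` besides the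
pseudo-effectivity of `M`, and no condition on the singularities of `X` and `(X, Δ)`.

**(2)** If `ν(K_F + Γ) ≤ 0` and `φ` is a section of `N (K_F + Γ)`, for instance if `F` is a torsor under
an abelian variety, or a Calabi-Yau variety, `Γ = 0`, and if `K_X + Δ` is pseudo-effective (as `K_X` is
in the conjecture) and its pull back to `F` is at most `K_F + Γ` (for instance if `Δ = 0` and `X` has
canonical singularities), then `φ` is a section of the pull back of `N (K_X + Δ)`, as assumed in (1).

If `L = D` is nef and `l L - K_X` is nef, and both `L` and `(l + 1) L - K_X` satisfy (1), then `L` is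
semiample by Kawamata's theorem (1985), which is not formalised here. For `r ≤ 2` and nef `L` the
restriction of `L` to the fibres is numerically equivalent to a semiample divisor by the theorem of
Lazić and Peternell.

The Iitaka and numerical dimension are given by their literal definitions, by the growth of the
number of sections of `m D`, and of `m D + A` for all effective divisors `A`.

## Proof

By the structure theorem and by taking norms of products of pluricanonical forms of `Z` and of powers
of `φ`, some multiple of `K_X + Δ` has `n + 1` sections whose ratios are `n` algebraically independent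
functions on `Z`, so also a section with zeros along any given finite set of prime divisors which do
not dominate `Z`. Let `Γ` be its divisor, divided by the multiplicity and multiplied with `a / q`;
so `D - Γ` is pseudo-effective. The sections of `N D` on `G` and their products with functions on `Z`
are sections of `N D` on `X` outside of the support of `Γ`. The theorem follows from the theorem
`transfer` in `Pool.Agent.Y172.R7` of the starting files: if `D - Γ` is pseudo-effective, `Γ ≥ 0`, and
the number of the sections of `m D + A` is bounded by multiples of `m ^ (n + k)`, and there are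
`n + k + 1` sections of `N D` outside of the support of `Γ` with algebraically independent ratios, then
there are such sections on `X`. The upper bound comes from the one on `G`.
-/

set_option autoImplicit false
set_option linter.overlappingInstances false
set_option maxHeartbeats 4000000
set_option synthInstance.maxHeartbeats 400000

open FF Module Pool.Agent Pool.Agent.W602.GT Pool.Agent.Y172
open Pool.Agent.T2h13.AF (FewForms res upE rho Tame NuLeZero)
open Pool.Agent.T2h13.LG (NuLe FibOrd)
open Pool.Agent.T2h13.GA
open Pool.Agent.R887 (LogDisc)

namespace Pool.Agent.Results.MP_1149f4_ag.FibredGeneralisedAbundance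

/-- The functions `f` such that the canonical form `f dx_1 ... dx_n` on the variety `V` with the
function field `E` and the coordinates `x` is regular at all prime divisors over `V`. -/
def canonicalForms {E : Type} [Field E] [Algebra ℂ E] {n : ℕ} (x : Fin n → E) : Set E :=
  {f | ∀ P : Place ℂ E, Divisorial n P → ∀ D : Fin n → Derivation ℂ E E, (∀ i, DerReg P (D i)) →
    P.Reg ((Matrix.of fun i j => D i (x j) : Matrix (Fin n) (Fin n) E).det * f)}

/-- The canonical forms of `V` separate less than `g` generic points: a linear relation between the
values of all canonical forms at less than `g` different dominant points of `V`, with values in an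
algebraically closed field, is trivial. -/
def Separates {E : Type} [Field E] [Algebra ℂ E] {n : ℕ} (x : Fin n → E) (g : ℕ) : Prop :=
  ∀ (Ω : Type) [Field Ω] [Algebra ℂ Ω] [IsAlgClosed Ω] (A : Finset (E →ₐ[ℂ] Ω)), A.card < g →
    ∀ c : (E →ₐ[ℂ] Ω) → Ω, (∀ f ∈ canonicalForms x, ∑ σ ∈ A, c σ * σ f = 0) →
      ∀ σ ∈ A, c σ = 0

/-- `W ⇢ V` is a dominant rational map with connected fibres from a variety of dimension `n + r` to a
variety of dimension `n` with the coordinates `x`; `K` and `E` are the function fields. -/
structure Fibration (n r : ℕ) {K : Type} [Field K] [Algebra ℂ K] (E : IntermediateField ℂ K)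
    (x : Fin n → E) : Prop where
  ess : Algebra.EssFiniteType ℂ K
  total : Algebra.trdeg ℂ K = (n + r : ℕ)
  base : Algebra.trdeg ℂ E = n
  closed : ∀ z : K, IsAlgebraic E z → z ∈ E
  coord : IsTranscendenceBasis ℂ x

/-- The degree over `X` of the image of `W` in `X × V`, where `L ⊆ K` is the function field of `X`,
`K` the one of `W` and `E ⊆ K` the one of `V`. -/
noncomputable def degree (L : Type) {K : Type} [Field L] [Field K] [Algebra ℂ K] [Algebra L K]
    (E : IntermediateField ℂ K) : ℕ :=
  finrank L (IntermediateField.adjoin L (E : Set K))

/-- The function field of the base `Z` of the fibration of `X`: the intersection of the function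
fields of `X` and `V`. -/
noncomputable def baseField (L : Type) {K : Type} [Field L] [Field K] [Algebra ℂ L] [Algebra ℂ K]
    [Algebra L K] [IsScalarTower ℂ L K] (E : IntermediateField ℂ K) : IntermediateField ℂ L :=
  E.comap (IsScalarTower.toAlgHom ℂ L K)

/-- The place of `K` with the order function `o` lies over the place `P` of `L`, with the ramification
index `e`. -/
def Above {K L : Type} [Field K] [Field L] [Algebra ℂ L] [Algebra L K] (o : K → ℤ) (P : Place ℂ L)
    (e : ℕ) : Prop :=
  0 < e ∧ ∀ f : L, o (algebraMap L K f) = e * P.ord f

/-- `φ` is a section of `N` times the canonical divisor of the foliation on `W` by the fibres of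
`W ⇢ V`, over the base: an `N`-fold canonical form on the generic fibre whose values on the vector
fields along the fibres which are regular at a prime divisor over `W` that does not dominate `V` are
regular there. Here `w` is the dimension of `W`. -/
def FolForm {K : Type} [Field K] [Algebra ℂ K] (E : IntermediateField ℂ K) (w r N : ℕ)
    (φ : (Fin r → Derivation E K K) → K) : Prop :=
  IsPluri N φ ∧ ∀ Q : Place ℂ K, Divisorial w Q → (∃ z ∈ E, Q.ord z ≠ 0) →
    ∀ U : Fin r → Derivation E K K, (∀ a, ∀ f, Q.Reg f → Q.Reg (U a f)) → Q.Reg (φ U)

section

variable {K L : Type} [Field K] [Algebra ℂ K] [Field L] [Algebra ℂ L] [Algebra L K] {N' : ℕ}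

/-- The form `φ` is a section of the restriction to `F` of the pull back of `N (K_X + Δ)`: its order is
at least `N (e (1 - Δ P) - 1)` along the prime divisors `v` of `F` which lie over a prime divisor `P`
of `X` with the ramification index `e`. -/
def PullSection (E : IntermediateField ℂ K) (r N : ℕ) (φ : (Fin r → Derivation E K K) → K)
    (y : Fin (N' + 1) → L) (Δ : Place ℂ L → ℚ) : Prop :=
  ∀ v : Place E K, ∀ (P : Place ℂ L) (e : ℕ), IsPrimeDivisor y P → Above v.ord P e →
    ∀ U : Fin r → Derivation E K K, (∀ a, DerReg v (U a)) →
      φ U = 0 ∨ (N : ℚ) * (e * (1 - Δ P) - 1) ≤ v.ord (φ U)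

/-- The restriction to the generic fibre `F` of the pull back of `K_X + Δ` is at most `K_F + Γ`: the
product of the ramification index and of the log discrepancy of `(X, Δ)` along the image of a prime
divisor `v` over `F` is at least `1 - Γ v`. Here `w` is the dimension of `X`. -/
def PullLe (E : IntermediateField ℂ K) (r w : ℕ) (Γ : Place E K → ℚ) (y : Fin (N' + 1) → L)
    (Δ : Place ℂ L → ℚ) : Prop :=
  ∀ v : Place E K, Divisorial r v → ∀ (P : Place ℂ L) (e : ℕ), Above v.ord P e →
    ∃ α : ℚ, LogDisc y w Δ P α ∧ 1 - Γ v ≤ e * α

end

theorem hX_iff {E : Type} [Field E] [Algebra ℂ E] {n : ℕ} (x : Fin n → E) :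
    N145.SX.HX x (fun _ => False) = canonicalForms x := by
  ext f
  constructor
  · intro h P hP D hD
    exact (h P hP).2 (fun h => h) D hD
  · intro h P hP
    refine ⟨fun D hD => h P hP D fun i y hy => ?_, fun _ D hD => h P hP D hD⟩
    by_cases hy0 : y = 0
    · rw [hy0, map_zero]
      exact P.reg_zero
    · have h1 := P.reg_mul (hD i y) hy
      rwa [div_mul_cancel₀ _ hy0] at h1

theorem sep_iff {E : Type} [Field E] [Algebra ℂ E] {n : ℕ} (x : Fin n → E) (g : ℕ) :
    N145.SX.SepX x (fun _ => False) g ↔ Separates x g := by
  unfold N145.SX.SepX Separates
  rw [hX_iff]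

theorem tame_iff {K L : Type} [Field K] [Algebra ℂ K] [Field L] [Algebra ℂ L] [Algebra L K]
    [IsScalarTower ℂ L K] {N' : ℕ} (E : IntermediateField ℂ K) (r N : ℕ)
    (φ : (Fin r → Derivation E K K) → K) (y : Fin (N' + 1) → L) (Δ : Place ℂ L → ℚ) :
    Tame E y Δ r N φ ↔ PullSection E r N φ y Δ := by
  constructor
  · intro h v P e hP hv U hU
    refine h (res v) P e hP hv (fun z hz => ?_) U hU
    by_cases hz0 : z = 0
    · rw [hz0]
      exact v.ord_zero
    · have h1 := v.ord_const (c := (⟨z, hz⟩ : E)) fun h => hz0 (congrArg Subtype.val h)
      exact h1
  · intro h Q P e hP hQ hE U hU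
    exact h (upE Q hE) P e hP hQ U hU

/-- **Generalised abundance for varieties dominated by fibrations.** Let the canonical forms of the
variety `V` of dimension `n` separate less than `g` generic points, let `W ⇢ V` be a fibration with
fibres of dimension `r ≥ 1`, and let its generic fibre `F` have few forms, with the bound `h ≥ 1`. Let
`L ⊆ K` be the function field of a normal projective variety `X` such that the extension is finite,
and let `(h + 1) d < g`, where `d` is the degree over `X` of the image of `W` in `X × V`. Let `Δ ≥ 0` be a
`ℚ`-divisor and `C` a canonical divisor on `X`. Let `φ ≠ 0` be a section of `N` times the canonical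
divisor of the foliation by the fibres of `W ⇢ V`, `N ≥ 1`. (1) Let `φ` be a section of the pull back of
`N (K_X + Δ)` on `F`. Let `D` be a `ℚ`-divisor on `X` with `q D = a (K_X + Δ) + M`, `q, a ≥ 1`, where `M` is
pseudo-effective. If the restriction of `D` to the generic fibre of `X ⇢ Z` has Iitaka dimension at
least `k`, and `k = r` or it has numerical dimension at most `k`, then the Iitaka dimension and the
numerical dimension of `D` are equal to `n + k`. (2) If `ν (K_F + Γ) ≤ 0`, `φ` is a section of
`N (K_F + Γ)`, the restriction to `F` of the pull back of `K_X + Δ` is at most `K_F + Γ`, and `K_X + Δ` is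
pseudo-effective, then `φ` is a section of the pull back of `N (K_X + Δ)` on `F`. -/
theorem result : ∀ (n r : ℕ) (K : Type) [Field K] [Algebra ℂ K] (E : IntermediateField ℂ K)
    (x : Fin n → E), Fibration n r E x → 1 ≤ r →
    ∀ g h : ℕ, Separates x g → 1 ≤ h → FewForms E r h →
    ∀ (L : Type) [Field L] [Algebra ℂ L] [Algebra L K] [IsScalarTower ℂ L K]
      [FiniteDimensional L K], (h + 1) * degree L E < g →
    ∀ (N' : ℕ) (y : Fin (N' + 1) → L), NormalModel y → ∀ Δ, Effective y Δ →
    ∀ C, IsCanonical y (n + r) C →
    ∀ (N : ℕ) (φ : (Fin r → Derivation E K K) → K), 1 ≤ N → FolForm E (n + r) r N φ → φ ≠ 0 →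
    (PullSection E r N φ y Δ →
      ∀ (D M : Place ℂ L → ℚ) (q a k : ℕ), IsDivisor y D → 1 ≤ q → 1 ≤ a →
        (∀ P, IsPrimeDivisor y P → q * D P = a * (C P + Δ P) + M P) → PseudoEffective y M →
        FibreIitakaGe (baseField L E) y D k → (k = r ∨ FibreNumLe (baseField L E) y D k) →
        iitakaDim y D = ((n + k : ℕ) : WithBot ℕ) ∧
          ∀ A, Effective y A → Integral y A → numDim y D A = ((n + k : ℕ) : EReal)) ∧
    ∀ Γ : Place E K → ℚ, NuLe E r Γ 0 → FibOrd E r N Γ φ → PullLe E r (n + r) Γ y Δ →
      PseudoEffective y (C + Δ) → PullSection E r N φ y Δ := by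
  intro n r K _ _ E x hF hr g h hs hh hf L _ _ _ _ _ hg N' y hy Δ hΔ C hC N φ hN hφ hφ0
  have hess := hF.ess
  have hessL : Algebra.EssFiniteType ℂ L := hy.ess
  refine ⟨?_, ?_⟩
  · intro hT D M q a k hD hq ha hDM hM hge hle
    exact gen_few hF.total hF.base hF.closed hF.coord ((sep_iff x g).2 hs) hh hg hf hy hΔ hN hφ.1
      hφ.2 hφ0 ((tame_iff E r N φ y Δ).2 hT) hC hD hq ha hDM hM hge hle
  · intro Γ hν hφo hH hps
    have hν' : NuLeZero E r Γ := fun S => by
      obtain ⟨C, hC⟩ := hν S
      exact ⟨C, fun m l ω hm hω hl => by simpa using hC m l ω hm hω hl⟩
    exact (tame_iff E r N φ y Δ).1 (tame_of_psef hr hF.total hF.base hν' hy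
      (fun Q hQ P e hP => hH Q hQ P e hP) hN hφo.1 hφo.2 hC hps)

end Pool.Agent.Results.MP_1149f4_ag.FibredGeneralisedAbundance
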