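import Pool.Agent.T2h12.NefN
import Pool.Agent.T2h12.Rnd
import Pool.Agent.T2H06.ASM.Adj

/-!
Adjoint divisors and sets of dominant rational self-maps, not necessarily invertible or commuting:
joint dynamical degrees and the degrees of random products.
-/

set_option autoImplicit false

open FF Pool.Agent.W602.GT Pool.Agent.Y172 Pool.Agent.R887 Pool.Agent.N110 Pool.Agent.T2h12
open Pool.Agent.T2H06.DYL (IsDivisor IsSec Cartier Nef IitakaGe IitakaEq NumLt NumEq PullLe
  iitaka_lt nef_trivial)
open Pool.Agent.T2H06.ASM (adj_pullR pull_of_mul divisor_of_mul)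
open Pool.Agent.T2H08.CM (IsCanonicalDivisor can_divisor add_divisor)

/-- Let `X` be a normal projective variety of dimension `n > 0` with canonical singularities, for
instance a projective manifold, `C` a canonical divisor, `M` and `L` Cartier divisors, `L` nef, such
that `l L = a C + b M`, where `l ≥ 1` and `a, b ≥ 0` (in the generalised abundance conjecture
`a = b = 1` and `M = l L - K_X` is nef). Let `S` be a set of dominant rational self-maps `f` of `X`,
invertible or not, which need not commute, given by the endomorphisms `φ = f^*` of the function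
field, such that the class of `M - f^* M` on `X` is pseudo-effective (for instance `f^* M ≡ M`);
nothing is assumed about the pull back of `L`. Let `1 ≤ ν ≤ n`, and suppose one of the following.

(1) The degrees `f^* H · H ^ (n - 1)` of the maps in `S` are bounded, and the greatest of the joint
dynamical degrees `λ 0, ..., λ n` of `S` is not attained at `ν + 1` consecutive indices.

(2) `S = {f_1, ..., f_d}`, the maps are taken at random with probabilities `w i`, and the greatest of
the growth rates `λ 0, ..., λ n` of the means of exponent `s ≥ 0` of the degrees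
`(g^* H) ^ p · H ^ (n - p)` of the random products `g` (for `s = 1` the expected degrees, for `s = 0`
the exponentials of the Lyapunov exponents of the degrees) is not attained at `ν + 1` consecutive
indices.

Then `ν (L) < ν`, and so `κ (L) < ν`. If `κ (L) ≥ ν - 1` then `κ (L) = ν (L) = ν - 1`. If `ν = 1`
then `L` is numerically trivial, and the sections `g ≠ 0` of `m L`, `m ≥ 1`, have no zeros:
`div g + m L = 0`.

If `κ (L) = ν (L)` and `l L - K_X` is nef, then `L` is semiample, by the theorem of Kawamata (1985),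
which is not formalised here. -/
theorem Pool.Agent.Results.MP_1149f4_ag.RandomAdjoint.result
    {K : Type} [Field K] [Algebra ℂ K] {N n : ℕ} {y : Fin (N + 1) → K}
    (hy : NormalModel y) (hn : Algebra.trdeg ℂ K = n) (hn0 : 0 < n) (hcan : Canonical y n)
    {C M L : Place ℂ K → ℚ} (hC : IsCanonicalDivisor y n C) (hM : IsDivisor y M)
    (hMcar : Cartier y n M) (hcar : Cartier y n L) (hnef : Nef y n L) {l a b : ℕ} (hl : 1 ≤ l)
    (hL : l • L = a • C + b • M) {S : Set (K →ₐ[ℂ] K)} (hle : ∀ φ ∈ S, PullLe y M φ 1)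
    {ν : ℕ} (hν1 : 1 ≤ ν) (hν : ν ≤ n)
    (hmaps :
      (∃ B : ℕ, (∀ φ ∈ S, selfDegree φ y n 1 ≤ B) ∧
        ∀ j, j + ν ≤ n → ∃ a ≤ ν, ∃ p ≤ n,
          selfJointDegree S y n (j + a) < selfJointDegree S y n p) ∨
      (∃ (d : ℕ) (f : Fin d → (K →ₐ[ℂ] K)) (w : Fin d → ℝ) (s : ℝ), Set.range f = S ∧
        (∀ i, 0 ≤ w i) ∧ ∑ i, w i = 1 ∧ 0 ≤ s ∧
        ∀ j, j + ν ≤ n → ∃ a ≤ ν, ∃ p ≤ n,
          randomDegree f w y n s (j + a) < randomDegree f w y n s p)) :
    NumLt y n L ν ∧ ¬ IitakaGe y L ν ∧
      (∀ k, k + 1 = ν → IitakaGe y L k → IitakaEq y L k ∧ NumEq y n L k) ∧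
      (ν = 1 → ∀ m : ℕ, 1 ≤ m → ∀ g : K, IsSec y (m • L) g → g ≠ 0 →
          ∀ P, IsPrimeDivisor y P → (P.ord g : ℚ) = -(m * L P)) := by
  classical
  have hD : IsDivisor y L := divisor_of_mul hl (by
    rw [hL]
    exact add_divisor (can_divisor hy hn hC) hM a b)
  have hpull : ∀ φ ∈ S, PullLe y L φ 1 := fun φ hφ => pull_of_mul hl (by
    rw [hL]
    exact adj_pullR hy hn hcan hC hMcar a b φ (hle φ hφ))
  obtain ⟨i, hi⟩ := hy.ne
  have h1 : NumLt y n L ν := by
    by_contra hnum
    rcases hmaps with ⟨B, hB, hdeg⟩ | ⟨d, f, w, s, hf, hw, hw1, hs, hdeg⟩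
    · obtain ⟨j, hj, h⟩ := plateau_nefL hy hn hn0 hD hcar hnef hpull hB hν hnum
      obtain ⟨a, ha, p, hp, hlt⟩ := hdeg j hj
      exact absurd hlt (not_lt.2 (h a ha p hp))
    · subst hf
      have hC₁ : ∀ φ ∈ Set.range f, I (eCls hy hn hi φ (hcls hy hi) ::ₘ
          Multiset.replicate (n - 1) (hcls hy hi)) ≤ Finset.univ.sup fun j =>
            I (eCls hy hn hi (f j) (hcls hy hi) ::ₘ
              Multiset.replicate (n - 1) (hcls hy hi)) := by
        rintro _ ⟨j, rfl⟩
        exact Finset.le_sup (f := fun j => I (eCls hy hn hi (f j) (hcls hy hi) ::ₘ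
          Multiset.replicate (n - 1) (hcls hy hi))) (Finset.mem_univ j)
      obtain ⟨j, hj, h⟩ := random_plateau hy hn hi hw hw1 hs hν
        (hasC_nefL hy hn hn0 hi hD hcar hnef hpull hC₁ hν hnum)
      obtain ⟨a, ha, p, hp, hlt⟩ := hdeg j hj
      exact absurd hlt (not_lt.2 (h a ha p hp))
  refine ⟨h1, iitaka_lt hy hn hν h1, fun k hk hkod => ?_, ?_⟩
  · subst hk
    exact ⟨⟨hkod, iitaka_lt hy hn hν h1⟩, h1, fun h3 => iitaka_lt hy hn (by omega) h3 hkod⟩
  · rintro rfl m hm g hg hg0
    exact nef_trivial hy hn hn0 h1 hnef hm hg hg0
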